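import Pool.Agent.Run7.h495.SV.Stm
import Pool.Agent.Results.MP_fd6526_gt.MeanBodyEmbeds

set_option autoImplicit false
open MeasureTheory Set Filter Topology Metric Module
open scoped ENNReal RealInnerProductSpace ContDiff

namespace Pool.Agent.Run7.h495.SV
open Pool.Agent.Results.MP_fd6526_gt.MeanBodyEmbeds Pool.Agent.R751.RMB

variable {n : ℕ}

lemma rad_rpow {K : Set (Eu n)} (hK : Body K) {p : ℝ} (hp : -1 < p) (hp0 : p < 0) {x : Eu n}
    (hx : x ≠ 0) : radial (meanBody K p) x ^ p = mean K (-p) x := by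
  have hq : 0 < -p := by linarith
  have hq1 : -p < 1 := by linarith
  obtain ⟨μ, hμ, hrep⟩ := mean_rep hK hq hq1
  have hn : 0 < ‖x‖ := norm_pos_iff.2 hx
  have hu : ‖x‖⁻¹ • x ≠ 0 := smul_ne_zero (inv_ne_zero hn.ne') hx
  have hm := (mean_pos hK hq hq1 hu).le
  rw [radial_meanBody hK hp hp0 hx, meanRadial_eq,
      Real.div_rpow (Real.rpow_nonneg hm _) hn.le, ← Real.rpow_mul hm,
      one_div, inv_mul_cancel₀ hp0.ne, Real.rpow_one, hrep _ hu, hrep _ hx,
      integral_hom μ (inv_nonneg.2 hn.le), Real.inv_rpow hn.le, Real.rpow_neg hn.le, inv_inv,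
      mul_div_assoc, mul_comm, div_mul_cancel₀]
  exact (Real.rpow_pos_of_pos hn _).ne'

lemma tent_nonneg (v : ℝ) : 0 ≤ tent v := le_max_left _ _

lemma tent_le (v : ℝ) : tent v ≤ 2 := max_le (by norm_num) (by linarith [abs_nonneg v])

lemma cov_nonneg (v : Eu n) : 0 ≤ cov v := Finset.prod_nonneg fun i _ => tent_nonneg _

lemma cov_le (v : Eu n) : cov v ≤ 2 ^ n := by
  unfold cov
  calc ∏ i, tent (v i) ≤ ∏ _i : Fin n, (2:ℝ) :=
        Finset.prod_le_prod (fun i _ => tent_nonneg _) (fun i _ => tent_le _)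
    _ = 2 ^ n := by simp

lemma continuous_cov : Continuous (cov (n := n)) := by
  unfold cov tent
  fun_prop

lemma covHat_nonneg (v : Eu n) : 0 ≤ covHat v := Finset.prod_nonneg fun i _ => by positivity

lemma continuous_covHat : Continuous (covHat (n := n)) := by
  unfold covHat
  have := Real.continuous_sinc
  fun_prop

lemma ker_nonneg (q : ℝ) {s : ℝ} (hs : 0 ≤ s) (x : Eu n) : 0 ≤ ker n q s x :=
  mul_nonneg (Real.rpow_nonneg hs _) (covHat_nonneg _)

lemma measurable_ker (q : ℝ) : Measurable fun z : ℝ × Eu n => ker n q z.1 z.2 := by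
  unfold ker
  refine Measurable.mul ?_ ?_
  · exact measurable_fst.pow_const _
  · exact continuous_covHat.measurable.comp (measurable_fst.inv.smul measurable_snd)

lemma continuous_ker (q s : ℝ) : Continuous (ker n q s) := by
  unfold ker
  have := continuous_covHat (n := n)
  fun_prop

/-- the integrand -/
noncomputable def hh (q : ℝ) (x : Eu n) (s : ℝ) : ℝ := s ^ (-1 - q) * (2 ^ n - cov (s • x))

lemma hh_nonneg (q : ℝ) (x : Eu n) {s : ℝ} (hs : 0 ≤ s) : 0 ≤ hh q x s :=
  mul_nonneg (Real.rpow_nonneg hs _) (sub_nonneg.2 (cov_le _))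

lemma measurable_hh (q : ℝ) : Measurable fun z : Eu n × ℝ => hh q z.1 z.2 := by
  unfold hh
  refine Measurable.mul ?_ ?_
  · exact measurable_snd.pow_const _
  · exact measurable_const.sub (continuous_cov.measurable.comp
      (measurable_snd.smul measurable_fst))

lemma layer' (hC : S_CUBE) (hB : Body (cube n)) {q : ℝ} (hq : 0 < q) (hq1 : q < 1) {x : Eu n}
    (hx : x ≠ 0) : IntegrableOn (hh q x) (Ioi 0) ∧
      (volume (cube n)).toReal⁻¹ * q * ∫ s in Ioi (0:ℝ), hh q x s = mean (cube n) q x := by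
  have h0 := layer hB.compact hB.convex hx hq
  have h1 : ∫⁻ s in Ioi (0:ℝ), ENNReal.ofReal (s ^ (-1 - q)) * out (cube n) x s
      = ∫⁻ s in Ioi (0:ℝ), ENNReal.ofReal (hh q x s) := by
    refine setLIntegral_congr_fun measurableSet_Ioi fun s hs => ?_
    simp only [hh]
    rw [hC, ENNReal.ofReal_mul (Real.rpow_nonneg (le_of_lt hs) _)]
  rw [h1] at h0
  have h2 := moment_lt_top hB.compact hB.convex hB.interior_nonempty hq hq1 hx
  rw [← h0] at h2
  have h3 : ∫⁻ s in Ioi (0:ℝ), ENNReal.ofReal (hh q x s) < ⊤ :=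
    ENNReal.lt_top_of_mul_ne_top_right h2.ne (by simpa using hq)
  have hnn : 0 ≤ᵐ[volume.restrict (Ioi (0:ℝ))] hh q x :=
    (ae_restrict_iff' measurableSet_Ioi).2 (Eventually.of_forall fun s hs =>
      hh_nonneg q x (le_of_lt hs))
  have hm : Measurable (hh q x) := (measurable_hh q).comp measurable_prodMk_left
  refine ⟨⟨hm.aestronglyMeasurable, (hasFiniteIntegral_iff_ofReal hnn).2 h3⟩, ?_⟩
  unfold mean
  rw [mul_assoc]
  congr 1
  rw [integral_eq_lintegral_of_nonneg_ae hnn hm.aestronglyMeasurable,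
    integral_eq_lintegral_of_nonneg_ae, ← h0, ENNReal.toReal_mul, ENNReal.toReal_ofReal hq.le]
  · exact Eventually.of_forall fun y => Real.rpow_nonneg (len_nonneg _ x y) _
  · exact (integrable_len hB hq hq1 hx).aestronglyMeasurable

lemma mean_le {K : Set (Eu n)} (hK : Body K) {q : ℝ} (hq : 0 < q) (hq1 : q < 1) :
    ∃ C : ℝ, ∀ x : Eu n, x ≠ 0 → mean K q x ≤ C * (1 + ‖x‖) := by
  obtain ⟨μ, hμ, hrep⟩ := mean_rep hK hq hq1
  refine ⟨(μ univ).toReal, fun x hx => ?_⟩
  rw [hrep x hx]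
  calc ∫ u, |⟪x, (u : Eu n)⟫| ^ q ∂μ ≤ ∫ u, (1 + ‖x‖) ∂μ := by
        refine integral_mono_of_nonneg (Eventually.of_forall fun u =>
          Real.rpow_nonneg (abs_nonneg _) _) (integrable_const _)
          (Eventually.of_forall fun u => ?_)
        have h1 : |⟪x, (u : Eu n)⟫| ≤ ‖x‖ := by
          have := abs_real_inner_le_norm x (u : Eu n)
          rwa [norm_eq_of_mem_sphere, mul_one] at this
        calc |⟪x, (u : Eu n)⟫| ^ q ≤ ‖x‖ ^ q := Real.rpow_le_rpow (abs_nonneg _) h1 hq.le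
          _ ≤ (1 + ‖x‖) ^ q := Real.rpow_le_rpow (norm_nonneg _) (by linarith) hq.le
          _ ≤ (1 + ‖x‖) ^ (1:ℝ) :=
            Real.rpow_le_rpow_of_exponent_le (by linarith [norm_nonneg x]) hq1.le
          _ = _ := Real.rpow_one _
    _ = (μ univ).toReal * (1 + ‖x‖) := by simp [Measure.real]

lemma ae_ne_zero (hn : 1 ≤ n) : ∀ᵐ x : Eu n, x ≠ 0 := by
  haveI : Nonempty (Fin n) := ⟨⟨0, hn⟩⟩
  haveI : Nontrivial (Eu n) := inferInstance
  exact compl_mem_ae_iff.2 (measure_singleton 0)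

lemma int_ft (hD : S_DEC) {φ : Eu n → ℝ} (hφ : Test φ) : Integrable (ft φ) := by
  obtain ⟨h1, h2, _⟩ := hD n φ hφ
  refine h2.mono' h1.aestronglyMeasurable (Eventually.of_forall fun x => ?_)
  nlinarith [norm_nonneg x, norm_nonneg (ft φ x)]

lemma int1 (hC : S_CUBE) (hB : Body (cube n)) (hD : S_DEC) (hn : 1 ≤ n) {q : ℝ} (hq : 0 < q)
    (hq1 : q < 1) {φ : Eu n → ℝ} (hφ : Test φ) :
    Integrable (fun z : Eu n × ℝ => ((hh q z.1 z.2 : ℝ) : ℂ) * ft φ z.1)
      ((volume : Measure (Eu n)).prod (volume.restrict (Ioi (0:ℝ)))) := by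
  obtain ⟨h1, h2, _⟩ := hD n φ hφ
  have hm : AEStronglyMeasurable (fun z : Eu n × ℝ => ((hh q z.1 z.2 : ℝ) : ℂ) * ft φ z.1)
      ((volume : Measure (Eu n)).prod (volume.restrict (Ioi (0:ℝ)))) := by
    refine Measurable.aestronglyMeasurable ?_
    exact (Complex.measurable_ofReal.comp (measurable_hh q)).mul (h1.measurable.comp measurable_fst)
  rw [integrable_prod_iff hm]
  constructor
  · filter_upwards [ae_ne_zero hn] with x hx
    exact ((layer' hC hB hq hq1 hx).1.ofReal).mul_const _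
  · obtain ⟨C, hC'⟩ := mean_le hB hq hq1
    have hV := volume_pos hB
    set a : ℝ := (volume (cube n)).toReal⁻¹ * q with ha
    have ha0 : 0 < a := by positivity
    refine (h2.const_mul (a⁻¹ * C)).mono' ?_ ?_
    · exact hm.norm.integral_prod_right'
    · filter_upwards [ae_ne_zero hn] with x hx
      have h3 := layer' hC hB hq hq1 hx
      have h4 : ∫ s in Ioi (0:ℝ), ‖((hh q x s : ℝ) : ℂ) * ft φ x‖
          = (∫ s in Ioi (0:ℝ), hh q x s) * ‖ft φ x‖ := by
        rw [← integral_mul_const]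
        refine setIntegral_congr_fun measurableSet_Ioi fun s hs => ?_
        simp only [norm_mul, Complex.norm_real]
        rw [Real.norm_of_nonneg (hh_nonneg q x (le_of_lt hs))]
      simp only [h4]
      have h5 : ∫ s in Ioi (0:ℝ), hh q x s = a⁻¹ * mean (cube n) q x := by
        rw [← h3.2, ← ha]; field_simp
      have h6 := hC' x hx
      have h7 := (mean_pos hB hq hq1 hx).le
      rw [h5, Real.norm_of_nonneg (by positivity)]
      calc a⁻¹ * mean (cube n) q x * ‖ft φ x‖ ≤ a⁻¹ * (C * (1 + ‖x‖)) * ‖ft φ x‖ := by gcongr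
        _ = a⁻¹ * C * ((1 + ‖x‖) * ‖ft φ x‖) := by ring

end Pool.Agent.Run7.h495.SV
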