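import Pool.Agent.Run7.h495.SV.MainA

set_option autoImplicit false
open MeasureTheory Set Filter Topology Metric Module
open scoped ENNReal RealInnerProductSpace ContDiff

namespace Pool.Agent.Run7.h495.SV
open Pool.Agent.Results.MP_fd6526_gt.MeanBodyEmbeds Pool.Agent.R751.RMB

variable {n : ℕ}

lemma int_ker (q s : ℝ) {φ : Eu n → ℝ} (hφ : Test φ) : Integrable fun ξ => ker n q s ξ * φ ξ := by
  refine Continuous.integrable_of_hasCompactSupport ?_ ?_
  · exact (continuous_ker q s).mul hφ.smooth.continuous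
  · exact hφ.compact.mul_left

lemma inner1 (hD : S_DEC) (hP : S_PARS) (q : ℝ) {φ : Eu n → ℝ} (hφ : Test φ) {s : ℝ}
    (hs : 0 < s) : ∫ x, ((hh q x s : ℝ) : ℂ) * ft φ x
      = ((-∫ ξ, ker n q s ξ * φ ξ : ℝ) : ℂ) := by
  have hi := int_ft hD hφ
  obtain ⟨h1, h2, h3⟩ := hD n φ hφ
  have h4 : Integrable fun x => ((cov (s • x) : ℝ) : ℂ) * ft φ x := by
    refine (hi.norm.const_mul (2 ^ n)).mono' ?_ (Eventually.of_forall fun x => ?_)
    · refine Continuous.aestronglyMeasurable ?_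
      have := continuous_cov (n := n)
      fun_prop
    · rw [norm_mul, Complex.norm_real, Real.norm_of_nonneg (cov_nonneg _)]
      gcongr
      exact cov_le _
  have h5 : ∀ x, ((hh q x s : ℝ) : ℂ) * ft φ x = ((s ^ (-1 - q) : ℝ) : ℂ)
      * (((2 ^ n : ℝ) : ℂ) * ft φ x - ((cov (s • x) : ℝ) : ℂ) * ft φ x) := by
    intro x
    unfold hh
    push_cast
    ring
  simp_rw [h5]
  rw [integral_const_mul, integral_sub (hi.const_mul _) h4, integral_const_mul, h3,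
    hP n φ hφ s hs, mul_zero, zero_sub, ← Complex.ofReal_neg, ← Complex.ofReal_mul]
  congr 1
  rw [mul_neg, ← integral_const_mul]
  congr 2
  ext ξ
  unfold ker
  rw [show (-1 - q - n : ℝ) = (-1 - q) + (-(n:ℝ)) by ring, Real.rpow_add hs]
  ring

lemma swap1 (hC : S_CUBE) (hB : Body (cube n)) (hD : S_DEC) (hP : S_PARS) (hn : 1 ≤ n) {q : ℝ}
    (hq : 0 < q) (hq1 : q < 1) {φ : Eu n → ℝ} (hφ : Test φ) :
    IntegrableOn (fun s => ∫ ξ, ker n q s ξ * φ ξ) (Ioi (0:ℝ)) ∧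
    ∫ x, ((mean (cube n) q x : ℝ) : ℂ) * ft φ x
      = ((-((volume (cube n)).toReal⁻¹ * q * ∫ s in Ioi (0:ℝ), ∫ ξ, ker n q s ξ * φ ξ) : ℝ) : ℂ) := by
  have hI := int1 hC hB hD hn hq hq1 hφ
  have hI2 := hI.integral_prod_right
  have h1 : (fun s => ∫ x : Eu n, ((hh q x s : ℝ) : ℂ) * ft φ x)
      =ᵐ[volume.restrict (Ioi (0:ℝ))] fun s => ((-∫ ξ, ker n q s ξ * φ ξ : ℝ) : ℂ) :=
    (ae_restrict_iff' measurableSet_Ioi).2 (Eventually.of_forall fun s hs =>
      inner1 hD hP q hφ hs)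
  constructor
  · have h2 := (hI2.congr h1).re.neg
    refine h2.congr (Eventually.of_forall fun s => ?_)
    simp
  · set a : ℝ := (volume (cube n)).toReal⁻¹ * q with ha
    have h3 : ∫ x, ((mean (cube n) q x : ℝ) : ℂ) * ft φ x
        = ∫ x, (a : ℂ) * ∫ s in Ioi (0:ℝ), ((hh q x s : ℝ) : ℂ) * ft φ x := by
      refine integral_congr_ae ?_
      filter_upwards [ae_ne_zero hn] with x hx
      rw [integral_mul_const, ← mul_assoc, ← (layer' hC hB hq hq1 hx).2, ← ha]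
      congr 1
      push_cast
      congr 1
      exact integral_ofReal.symm
    have h7 : ∫ s in Ioi (0:ℝ), ((-∫ ξ : Eu n, ker n q s ξ * φ ξ : ℝ) : ℂ)
        = ((∫ s in Ioi (0:ℝ), -∫ ξ : Eu n, ker n q s ξ * φ ξ : ℝ) : ℂ) := integral_ofReal
    rw [h3, integral_const_mul, integral_integral_swap hI, integral_congr_ae h1, h7,
      ← Complex.ofReal_mul, integral_neg]
    congr 1
    ring

/-- the density, as an extended number -/
noncomputable def G (n : ℕ) (q : ℝ) (ξ : Eu n) : ℝ≥0∞ :=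
  ∫⁻ s in Ioi (0:ℝ), ENNReal.ofReal (ker n q s ξ)

lemma measurable_G (q : ℝ) : Measurable (G n q) := by
  have h : Measurable fun z : Eu n × ℝ => ENNReal.ofReal (ker n q z.2 z.1) :=
    ((measurable_ker q).comp measurable_swap).ennreal_ofReal
  exact h.lintegral_prod_right'

lemma tonelli (q : ℝ) (ψ : Eu n → ℝ≥0∞) (hψ : Measurable ψ) :
    ∫⁻ s in Ioi (0:ℝ), ∫⁻ ξ : Eu n, ENNReal.ofReal (ker n q s ξ) * ψ ξ = ∫⁻ ξ, G n q ξ * ψ ξ := by
  rw [lintegral_lintegral_swap]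
  · refine lintegral_congr fun ξ => ?_
    have : Measurable fun s : ℝ => ENNReal.ofReal (ker n q s ξ) :=
      ((measurable_ker q).comp (measurable_id.prodMk measurable_const)).ennreal_ofReal
    rw [lintegral_mul_const _ this]
    rfl
  · refine Measurable.aemeasurable ?_
    exact ((measurable_ker q).ennreal_ofReal).mul (hψ.comp measurable_snd)

lemma fin1 (hC : S_CUBE) (hB : Body (cube n)) (hD : S_DEC) (hP : S_PARS) (hn : 1 ≤ n) {q : ℝ}
    (hq : 0 < q) (hq1 : q < 1) {φ : Eu n → ℝ} (hφ : Test φ) (h0 : ∀ x, 0 ≤ φ x) :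
    ∫⁻ ξ, G n q ξ * ENNReal.ofReal (φ ξ) < ⊤ := by
  rw [← tonelli q _ hφ.smooth.continuous.measurable.ennreal_ofReal]
  have h1 := (swap1 hC hB hD hP hn hq hq1 hφ).1
  refine lt_of_eq_of_lt ?_ h1.lintegral_lt_top
  refine setLIntegral_congr_fun measurableSet_Ioi fun s hs => ?_
  rw [ofReal_integral_eq_lintegral_ofReal (int_ker q s hφ) (Eventually.of_forall fun ξ =>
    mul_nonneg (ker_nonneg q (le_of_lt hs) ξ) (h0 ξ))]
  refine lintegral_congr fun ξ => ?_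
  rw [ENNReal.ofReal_mul (ker_nonneg q (le_of_lt hs) ξ)]

lemma fin2 (hC : S_CUBE) (hB : Body (cube n)) (hD : S_DEC) (hP : S_PARS) (hn : 1 ≤ n) {q : ℝ}
    (hq : 0 < q) (hq1 : q < 1) {x₀ : Eu n} (hx : x₀ ≠ 0) :
    ∃ U ∈ 𝓝 x₀, ∫⁻ ξ in U, G n q ξ < ⊤ := by
  obtain ⟨f, hf1, hf2, hf3, hf4, hf5⟩ := exists_contDiff_tsupport_subset (n := (⊤ : ℕ∞))
    (isOpen_compl_singleton.mem_nhds (show x₀ ∈ ({0}ᶜ : Set (Eu n)) from hx))
  have hφ : Test f := ⟨hf3, hf2, fun h => (hf1 h) rfl⟩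
  have h0 : ∀ x, 0 ≤ f x := fun x => (hf4 (mem_range_self x)).1
  have h1 := fin1 hC hB hD hP hn hq hq1 hφ h0
  have hopen : IsOpen {ξ | 1 / 2 < f ξ} := isOpen_lt continuous_const hf3.continuous
  refine ⟨{ξ | 1 / 2 < f ξ}, hopen.mem_nhds (by simp only [mem_setOf_eq]; rw [hf5]; norm_num), ?_⟩
  have h2 : ∫⁻ ξ in {ξ | 1 / 2 < f ξ}, G n q ξ
      ≤ ∫⁻ ξ, ENNReal.ofReal 2 * (G n q ξ * ENNReal.ofReal (f ξ)) := by
    refine le_trans (setLIntegral_mono' hopen.measurableSet fun ξ hξ => ?_)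
      (setLIntegral_le_lintegral _ _)
    have h3 : (1 : ℝ≥0∞) ≤ ENNReal.ofReal 2 * ENNReal.ofReal (f ξ) := by
      rw [← ENNReal.ofReal_mul (by norm_num), ← ENNReal.ofReal_one]
      refine ENNReal.ofReal_le_ofReal ?_
      have : 1 / 2 < f ξ := hξ
      linarith
    calc G n q ξ = G n q ξ * 1 := (mul_one _).symm
      _ ≤ G n q ξ * (ENNReal.ofReal 2 * ENNReal.ofReal (f ξ)) := by gcongr
      _ = _ := by ring
  refine lt_of_le_of_lt h2 ?_
  rw [lintegral_const_mul' _ _ ENNReal.ofReal_ne_top]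
  exact ENNReal.mul_lt_top ENNReal.ofReal_lt_top h1

lemma fin3 (hC : S_CUBE) (hB : Body (cube n)) (hD : S_DEC) (hP : S_PARS) (hn : 1 ≤ n) {q : ℝ}
    (hq : 0 < q) (hq1 : q < 1) {φ : Eu n → ℝ} (hφ : Test φ) :
    ∫⁻ ξ, G n q ξ * ‖φ ξ‖ₑ < ⊤ := by
  obtain ⟨B, hBd⟩ := hφ.smooth.continuous.bounded_above_of_compact_support hφ.compact
  have h1 : (volume.withDensity (G n q)) (tsupport φ) < ⊤ := by
    refine IsCompact.measure_lt_top_of_nhdsWithin hφ.compact fun x hx => ?_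
    have hx0 : x ≠ 0 := by
      rintro rfl
      exact hφ.zero hx
    obtain ⟨U, hU, hfin⟩ := fin2 hC hB hD hP hn hq hq1 hx0
    obtain ⟨V, hVU, hV, hxV⟩ := _root_.mem_nhds_iff.1 hU
    refine ⟨V, mem_nhdsWithin_of_mem_nhds (hV.mem_nhds hxV), ?_⟩
    rw [withDensity_apply _ hV.measurableSet]
    exact lt_of_le_of_lt (lintegral_mono_set hVU) hfin
  have h2 : ∫⁻ ξ, G n q ξ * ‖φ ξ‖ₑ ≤ ∫⁻ ξ in tsupport φ, ENNReal.ofReal B * G n q ξ := by
    rw [← lintegral_indicator (isClosed_tsupport φ).measurableSet]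
    refine lintegral_mono fun ξ => ?_
    by_cases hξ : ξ ∈ tsupport φ
    · simp only [indicator_of_mem hξ]
      rw [mul_comm]
      gcongr
      rw [← ofReal_norm_eq_enorm]
      exact ENNReal.ofReal_le_ofReal (hBd ξ)
    · simp only [indicator_of_notMem hξ]
      rw [image_eq_zero_of_notMem_tsupport hξ]
      simp
  refine lt_of_le_of_lt h2 ?_
  rw [lintegral_const_mul' _ _ ENNReal.ofReal_ne_top]
  rw [withDensity_apply _ (isClosed_tsupport φ).measurableSet] at h1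
  exact ENNReal.mul_lt_top ENNReal.ofReal_lt_top h1

end Pool.Agent.Run7.h495.SV
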