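import Pool.Agent.Run7.h495.SV.MainB

set_option autoImplicit false
open MeasureTheory Set Filter Topology Metric Module
open scoped ENNReal RealInnerProductSpace ContDiff

namespace Pool.Agent.Run7.h495.SV
open Pool.Agent.Results.MP_fd6526_gt.MeanBodyEmbeds Pool.Agent.R751.RMB

variable {n : ℕ}

lemma prodint (hC : S_CUBE) (hB : Body (cube n)) (hD : S_DEC) (hP : S_PARS) (hn : 1 ≤ n) {q : ℝ}
    (hq : 0 < q) (hq1 : q < 1) {φ : Eu n → ℝ} (hφ : Test φ) :
    Integrable (fun z : ℝ × Eu n => ker n q z.1 z.2 * φ z.2)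
      ((volume.restrict (Ioi (0:ℝ))).prod (volume : Measure (Eu n))) := by
  have hm : Measurable fun z : ℝ × Eu n => ker n q z.1 z.2 * φ z.2 :=
    (measurable_ker q).mul (hφ.smooth.continuous.measurable.comp measurable_snd)
  refine ⟨hm.aestronglyMeasurable, ?_⟩
  unfold HasFiniteIntegral
  rw [lintegral_prod _ hm.enorm.aemeasurable]
  have h1 : ∫⁻ s in Ioi (0:ℝ), ∫⁻ ξ : Eu n, ‖ker n q s ξ * φ ξ‖ₑ
      = ∫⁻ s in Ioi (0:ℝ), ∫⁻ ξ : Eu n, ENNReal.ofReal (ker n q s ξ) * ‖φ ξ‖ₑ := by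
    refine setLIntegral_congr_fun measurableSet_Ioi fun s hs => ?_
    refine lintegral_congr fun ξ => ?_
    rw [enorm_mul, Real.enorm_of_nonneg (ker_nonneg q (le_of_lt hs) ξ)]
  simp only
  rw [h1, tonelli q _ hφ.smooth.continuous.measurable.enorm]
  exact fin3 hC hB hD hP hn hq hq1 hφ

lemma swap2 (hC : S_CUBE) (hB : Body (cube n)) (hD : S_DEC) (hP : S_PARS) (hn : 1 ≤ n) {q : ℝ}
    (hq : 0 < q) (hq1 : q < 1) {φ : Eu n → ℝ} (hφ : Test φ) :
    ∫ s in Ioi (0:ℝ), ∫ ξ, ker n q s ξ * φ ξ = ∫ ξ, (G n q ξ).toReal * φ ξ := by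
  rw [integral_integral_swap (prodint hC hB hD hP hn hq hq1 hφ)]
  congr 1
  ext ξ
  rw [integral_mul_const]
  congr 1
  have hm : Measurable fun s : ℝ => ker n q s ξ :=
    (measurable_ker q).comp (measurable_id.prodMk measurable_const)
  rw [integral_eq_lintegral_of_nonneg_ae _ hm.aestronglyMeasurable]
  · rfl
  · exact (ae_restrict_iff' measurableSet_Ioi).2 (Eventually.of_forall fun s hs =>
      ker_nonneg q (le_of_lt hs) ξ)

lemma ident (hC : S_CUBE) (hB : Body (cube n)) (hD : S_DEC) (hP : S_PARS) (hn : 1 ≤ n) {p : ℝ}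
    (hp : -1 < p) (hp0 : p < 0) {φ : Eu n → ℝ} (hφ : Test φ) :
    ∫ x, ((radial (meanBody (cube n) p) x ^ p : ℝ) : ℂ) * ft φ x
      = ((-((volume (cube n)).toReal⁻¹ * (-p) * ∫ ξ, (G n (-p) ξ).toReal * φ ξ) : ℝ) : ℂ) := by
  have hq : 0 < -p := by linarith
  have hq1 : -p < 1 := by linarith
  rw [← swap2 hC hB hD hP hn hq hq1 hφ, ← (swap1 hC hB hD hP hn hq hq1 hφ).2]
  refine integral_congr_ae ?_
  filter_upwards [ae_ne_zero hn] with x hx
  rw [rad_rpow hB hp hp0 hx]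

lemma locG (hC : S_CUBE) (hB : Body (cube n)) (hD : S_DEC) (hP : S_PARS) (hn : 1 ≤ n) {q : ℝ}
    (hq : 0 < q) (hq1 : q < 1) :
    LocallyIntegrableOn (fun ξ => (G n q ξ).toReal) {(0 : Eu n)}ᶜ := by
  intro x hx
  obtain ⟨U, hU, hfin⟩ := fin2 hC hB hD hP hn hq hq1 (show x ≠ 0 from hx)
  refine ⟨U, mem_nhdsWithin_of_mem_nhds hU, ?_⟩
  exact integrable_toReal_of_lintegral_ne_top (measurable_G q).aemeasurable hfin.ne

lemma aeG (hC : S_CUBE) (hB : Body (cube n)) (hD : S_DEC) (hP : S_PARS) (hn : 1 ≤ n) {q : ℝ}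
    (hq : 0 < q) (hq1 : q < 1) : ∀ᵐ ξ : Eu n, ξ ≠ 0 → G n q ξ < ⊤ := by
  have h : volume {ξ : Eu n | ξ ≠ 0 ∧ G n q ξ = ⊤} = 0 := by
    refine measure_null_of_locally_null _ fun x hx => ?_
    obtain ⟨U, hU, hfin⟩ := fin2 hC hB hD hP hn hq hq1 hx.1
    obtain ⟨V, hVU, hV, hxV⟩ := _root_.mem_nhds_iff.1 hU
    refine ⟨V ∩ {ξ : Eu n | ξ ≠ 0 ∧ G n q ξ = ⊤}, ?_, ?_⟩
    · exact inter_mem (mem_nhdsWithin_of_mem_nhds (hV.mem_nhds hxV)) self_mem_nhdsWithin
    · have h1 := ae_lt_top (measurable_G (n := n) q)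
        (lt_of_le_of_lt (lintegral_mono_set hVU) hfin).ne
      rw [ae_restrict_iff' hV.measurableSet] at h1
      refine measure_mono_null ?_ (ae_iff.1 h1)
      rintro y ⟨hy1, hy2⟩
      simp only [mem_setOf_eq, not_forall]
      exact ⟨hy1, by rw [hy2.2]; exact lt_irrefl _⟩
  rw [ae_iff]
  refine measure_mono_null ?_ h
  intro y hy
  simp only [mem_setOf_eq, not_forall] at hy ⊢
  obtain ⟨h1, h2⟩ := hy
  exact ⟨h1, by simpa using h2⟩

/-- the radial function of a set, with values in `[0, ∞]` -/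
noncomputable def eradial (L : Set (Eu n)) (x : Eu n) : ℝ≥0∞ :=
  ⨆ t ∈ {t : ℝ | 0 ≤ t ∧ t • x ∈ L}, ENNReal.ofReal t

lemma mem_of_lt {L : Set (Eu n)} (hL : StarConvex ℝ 0 L) {x : Eu n}
    (h : ‖x‖ < (eradial L (‖x‖⁻¹ • x)).toReal) (hx : x ≠ 0) : x ∈ L := by
  have hn : 0 < ‖x‖ := norm_pos_iff.2 hx
  have hne : eradial L (‖x‖⁻¹ • x) ≠ ⊤ := by
    intro h1
    rw [h1, ENNReal.toReal_top] at h
    linarith
  have h1 := (ENNReal.ofReal_lt_iff_lt_toReal hn.le hne).2 h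
  unfold eradial at h1
  obtain ⟨t, h2⟩ := lt_iSup_iff.1 h1
  obtain ⟨ht, h3⟩ := lt_iSup_iff.1 h2
  have h4 : ‖x‖ < t := (ENNReal.ofReal_lt_ofReal_iff_of_nonneg hn.le).1 h3
  have ht0 : 0 < t := hn.trans h4
  have h5 := hL.smul_mem ht.2 (t := ‖x‖ / t) (by positivity) ((div_le_one ht0).2 h4.le)
  have h6 : (‖x‖ / t) • t • ‖x‖⁻¹ • x = x := by
    rw [smul_smul, smul_smul]
    have : ‖x‖ / t * t * ‖x‖⁻¹ = 1 := by field_simp
    rw [this, one_smul]
  rwa [h6] at h5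

/-- the radial function of `L` on the sphere, extended as a homogeneous function of degree
`p - n` -/
noncomputable def homog (n : ℕ) (p : ℝ) (L : Set (Eu n)) (ξ : Eu n) : ℝ :=
  ‖ξ‖ ^ (p - n) * (eradial L (‖ξ‖⁻¹ • ξ)).toReal

/-- away from the origin the distribution `Γ(p/2) (ρ_{R_p K}^p)^` is given by the function `F` -/
structure GivenBy (K : Set (Eu n)) (p : ℝ) (F : Eu n → ℝ) : Prop where
  loc : LocallyIntegrableOn F {(0 : Eu n)}ᶜ
  eq : ∀ φ : Eu n → ℝ, Test φ →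
    ((Real.Gamma (p / 2) : ℝ) : ℂ) * ∫ x, ((radial (meanBody K p) x ^ p : ℝ) : ℂ) * ft φ x
      = ((∫ ξ, F ξ * φ ξ : ℝ) : ℂ)

lemma gamma_neg {p : ℝ} (hp : -1 < p) (hp0 : p < 0) : Real.Gamma (p / 2) < 0 := by
  have h1 := Real.Gamma_add_one (s := p / 2) (by linarith)
  have h2 : 0 < Real.Gamma (p / 2 + 1) := Real.Gamma_pos_of_pos (by linarith)
  rw [h1] at h2
  exact neg_of_mul_pos_right h2 (by linarith)

lemma int_mul {F : Eu n → ℝ} (hF : LocallyIntegrableOn F {(0 : Eu n)}ᶜ) {φ : Eu n → ℝ}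
    (hφ : Test φ) : Integrable fun ξ => F ξ * φ ξ := by
  have hsub : tsupport φ ⊆ {(0 : Eu n)}ᶜ := by
    intro x hx h0
    rw [mem_singleton_iff] at h0
    subst h0
    exact hφ.zero hx
  have h1 : IntegrableOn F (tsupport φ) := hF.integrableOn_compact_subset hsub hφ.compact
  have h2 := h1.mul_continuousOn hφ.smooth.continuous.continuousOn hφ.compact
  rw [integrableOn_iff_integrable_of_support_subset] at h2
  · exact h2
  · intro x hx
    refine subset_tsupport φ ?_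
    rw [Function.mem_support] at hx ⊢
    intro h
    apply hx
    simp [h]

/-- the constant -/
noncomputable def cc (n : ℕ) (p : ℝ) : ℝ :=
  -(Real.Gamma (p / 2) * ((volume (cube n)).toReal⁻¹ * (-p)))

lemma cc_pos (hB : Body (cube n)) {p : ℝ} (hp : -1 < p) (hp0 : p < 0) : 0 < cc n p := by
  have h1 := gamma_neg hp hp0
  have h2 := volume_pos hB
  have h3 : 0 < (volume (cube n)).toReal⁻¹ * (-p) := mul_pos (inv_pos.2 h2) (by linarith)
  unfold cc
  have := mul_neg_of_neg_of_pos h1 h3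
  linarith

lemma given (hC : S_CUBE) (hB : Body (cube n)) (hD : S_DEC) (hP : S_PARS) (hn : 1 ≤ n) {p : ℝ}
    (hp : -1 < p) (hp0 : p < 0) :
    GivenBy (cube n) p (fun ξ => cc n p * (G n (-p) ξ).toReal) := by
  have hq : 0 < -p := by linarith
  have hq1 : -p < 1 := by linarith
  constructor
  · intro x hx
    obtain ⟨U, hU, h⟩ := locG hC hB hD hP hn hq hq1 x hx
    exact ⟨U, hU, h.const_mul _⟩
  · intro φ hφ
    rw [ident hC hB hD hP hn hp hp0 hφ, ← Complex.ofReal_mul]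
    congr 1
    have : ∀ ξ : Eu n, cc n p * (G n (-p) ξ).toReal * φ ξ
        = cc n p * ((G n (-p) ξ).toReal * φ ξ) := fun ξ => by ring
    simp_rw [this]
    rw [integral_const_mul]
    unfold cc
    ring

theorem vol (hC : S_CUBE) (hB : Body (cube n)) (hD : S_DEC) (hP : S_PARS) (hI : S_INF)
    (hn : 3 ≤ n) {p : ℝ} (hp : -1 < p) (hp0 : p < 0) {L : Set (Eu n)} (hL : StarConvex ℝ 0 L)
    (hF : GivenBy (cube n) p (homog n p L)) : volume L = ⊤ := by
  have hq : 0 < -p := by linarith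
  have hq1 : -p < 1 := by linarith
  have hn1 : 1 ≤ n := by omega
  have hc := cc_pos hB hp hp0
  have hG := given hC hB hD hP hn1 hp hp0
  have hae : ∀ᵐ ξ : Eu n, ξ ∈ ({(0 : Eu n)}ᶜ : Set (Eu n)) →
      homog n p L ξ - cc n p * (G n (-p) ξ).toReal = 0 := by
    refine isOpen_compl_singleton.ae_eq_zero_of_integral_contDiff_smul_eq_zero
      (hF.loc.sub hG.loc) fun g hg1 hg2 hg3 => ?_
    have hφ : Test g := ⟨hg1, hg2, fun h => (hg3 h) rfl⟩
    have h1 := hF.eq g hφ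
    rw [hG.eq g hφ] at h1
    have h2 := Complex.ofReal_injective h1
    have h3 : ∀ ξ : Eu n, g ξ • (homog n p L ξ - cc n p * (G n (-p) ξ).toReal)
        = homog n p L ξ * g ξ - cc n p * (G n (-p) ξ).toReal * g ξ := fun ξ => by
      rw [smul_eq_mul]; ring
    simp_rw [h3]
    rw [integral_sub (int_mul hF.loc hφ) (int_mul hG.loc hφ), ← h2, sub_self]
  rw [eq_top_iff, ← hI n hn (-p) hq (cc n p) hc]
  refine measure_mono_ae ?_
  filter_upwards [hae, aeG hC hB hD hP hn1 hq hq1, ae_ne_zero hn1] with x h1 h2 hx hxS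
  have h3 := h1 hx
  have h4 := h2 hx
  have hnx : 0 < ‖x‖ := norm_pos_iff.2 hx
  have h5 : ENNReal.ofReal (‖x‖ ^ (1 - n - -p : ℝ)) < ENNReal.ofReal (cc n p) * G n (-p) x := hxS
  rw [← ENNReal.ofReal_toReal h4.ne, ← ENNReal.ofReal_mul hc.le,
    ENNReal.ofReal_lt_ofReal_iff_of_nonneg (Real.rpow_nonneg hnx.le _)] at h5
  have h6 : ‖x‖ ^ (1 - n - -p : ℝ) < homog n p L x := by linarith
  unfold homog at h6
  rw [show (1 - n - -p : ℝ) = (p - n) + 1 by ring, Real.rpow_add hnx, Real.rpow_one] at h6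
  have h7 := lt_of_mul_lt_mul_left h6 (Real.rpow_nonneg hnx.le _)
  exact mem_of_lt hL h7 hx

end Pool.Agent.Run7.h495.SV
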