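import Pool.Agent.R751.RmD

set_option autoImplicit false
open MeasureTheory Set Filter Topology Metric Module
open scoped ENNReal RealInnerProductSpace ContDiff

/-! MP_fd6526_gt, second question, pieces. -/

namespace Pool.Agent.Run7.h495.SV

/-- the space -/
abbrev Eu (n : ℕ) := EuclideanSpace ℝ (Fin n)

/-- the cube `[-1,1]^n` -/
def cube (n : ℕ) : Set (Eu n) := {x | ∀ i, |x i| ≤ 1}

/-- the tent -/
def tent (v : ℝ) : ℝ := max 0 (2 - |v|)

/-- the covariogram of the cube -/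
noncomputable def cov {n : ℕ} (v : Eu n) : ℝ := ∏ i, tent (v i)

/-- its Fourier transform -/
noncomputable def covHat {n : ℕ} (ξ : Eu n) : ℝ := ∏ i, 4 * Real.sinc (ξ i) ^ 2

/-- the Fourier transform with kernel `exp (-i⟨x, ξ⟩)` of a real function -/
noncomputable def ft {n : ℕ} (φ : Eu n → ℝ) (ξ : Eu n) : ℂ :=
  ∫ x, Complex.exp (-((⟪x, ξ⟫ : ℝ) : ℂ) * Complex.I) * (φ x : ℂ)

/-- test functions: smooth, compact support that does not meet the origin -/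
structure Test {n : ℕ} (φ : Eu n → ℝ) : Prop where
  smooth : ContDiff ℝ ∞ φ
  compact : HasCompactSupport φ
  zero : (0 : Eu n) ∉ tsupport φ

/-- the kernel -/
noncomputable def ker (n : ℕ) (q : ℝ) (s : ℝ) (ξ : Eu n) : ℝ :=
  s ^ (-1 - q - n) * covHat (s⁻¹ • ξ)

/-- CUBE: the measure of the part of the cube that leaves it -/
def S_CUBE : Prop := ∀ (n : ℕ) (x : Eu n) (s : ℝ),
  Pool.Agent.R751.RMB.out (cube n) x s = ENNReal.ofReal (2 ^ n - cov (s • x))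

/-- TENT: one-dimensional transform -/
def S_TENT : Prop := ∀ η : ℝ,
  ∫ v : ℝ, Complex.exp (-((v * η : ℝ) : ℂ) * Complex.I) * (tent v : ℂ)
    = ((4 * Real.sinc η ^ 2 : ℝ) : ℂ)

/-- COV: transform of the covariogram -/
def S_COV : Prop := ∀ (n : ℕ) (ξ : Eu n), Integrable (cov (n := n)) ∧
  ft (cov (n := n)) ξ = (covHat ξ : ℂ)

/-- PARS: the transform is self-adjoint, with scaling -/
def S_PARS : Prop := ∀ (n : ℕ) (φ : Eu n → ℝ), Test φ → ∀ s : ℝ, 0 < s →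
  ∫ x, ((cov (s • x) : ℝ) : ℂ) * ft φ x
    = ((∫ ξ, s ^ (-(n : ℝ)) * covHat (s⁻¹ • ξ) * φ ξ : ℝ) : ℂ)

/-- DEC: decay of the transform of a test function, inversion at the origin -/
def S_DEC : Prop := ∀ (n : ℕ) (φ : Eu n → ℝ), Test φ →
  Continuous (ft φ) ∧ Integrable (fun x => (1 + ‖x‖) * ‖ft φ x‖) ∧ ∫ x, ft φ x = 0

/-- LOW: lower bound for the density near the first axis -/
def S_LOW : Prop := ∀ (n : ℕ) (i₀ : Fin n) (q : ℝ), 0 < q → ∃ c : ℝ, 0 < c ∧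
  ∀ x : Eu n, (∀ i, i ≠ i₀ → |x i| ≤ 1) → 8 ≤ x i₀ →
    ENNReal.ofReal (c / x i₀ ^ 2) ≤ ∫⁻ s in Ioi (0:ℝ), ENNReal.ofReal (ker n q s x)

/-- INF: the star-shaped set has infinite volume -/
def S_INF : Prop := ∀ (n : ℕ), 3 ≤ n → ∀ q : ℝ, 0 < q → ∀ c : ℝ, 0 < c →
  volume {x : Eu n | ENNReal.ofReal (‖x‖ ^ (1 - n - q : ℝ))
    < ENNReal.ofReal c * ∫⁻ s in Ioi (0:ℝ), ENNReal.ofReal (ker n q s x)} = ⊤

end Pool.Agent.Run7.h495.SV
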